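import Pool.Agent.N641.VB.Stm7

set_option autoImplicit false

/-!
# Project VB (helper641), part RCA: the Boolean algebra of a relatively complemented
distributive lattice
-/

namespace Pool.Agent.N329.VB.RCAP

section
variable {D : Type} [DistribLattice D]

/-- lattice homomorphisms to the two element lattice, as sets -/
def X (D : Type) [DistribLattice D] : Type :=
  {P : Set D // (∀ x y, x ⊓ y ∈ P ↔ x ∈ P ∧ y ∈ P) ∧ (∀ x y, x ⊔ y ∈ P ↔ x ∈ P ∨ y ∈ P)}

/-- the points of an element -/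
def h (x : D) : Set (X D) := {P | x ∈ P.1}

theorem h_inf (x y : D) (P : X D) : P ∈ h (x ⊓ y) ↔ P ∈ h x ∧ P ∈ h y := P.2.1 x y

theorem h_sup (x y : D) (P : X D) : P ∈ h (x ⊔ y) ↔ P ∈ h x ∨ P ∈ h y := P.2.2 x y

theorem h_le (x y : D) : x ≤ y ↔ ∀ P : X D, P ∈ h x → P ∈ h y := by
  constructor
  · intro hxy P hx
    have h0 : x ⊓ y = x := inf_eq_left.2 hxy
    have h1 : P ∈ h (x ⊓ y) := by rw [h0]; exact hx
    exact ((h_inf x y P).1 h1).2
  · intro H
    by_contra hn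
    have hd : Disjoint ((Order.PFilter.principal x : Order.PFilter D) : Set D)
        ((Order.Ideal.principal y : Order.Ideal D) : Set D) := by
      rw [Set.disjoint_left]
      intro z hz1 hz2
      have hz1' : x ≤ z := by simpa using hz1
      have hz2' : z ≤ y := by simpa using hz2
      exact hn (le_trans hz1' hz2')
    obtain ⟨J, hJ, hI, hF⟩ := DistribLattice.prime_ideal_of_disjoint_filter_ideal hd
    have hP : (∀ a b : D, a ⊓ b ∈ ((J : Set D)ᶜ) ↔ a ∈ ((J : Set D)ᶜ) ∧ b ∈ ((J : Set D)ᶜ)) ∧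
        (∀ a b : D, a ⊔ b ∈ ((J : Set D)ᶜ) ↔ a ∈ ((J : Set D)ᶜ) ∨ b ∈ ((J : Set D)ᶜ)) := by
      constructor
      · intro a b
        simp only [Set.mem_compl_iff, SetLike.mem_coe]
        constructor
        · intro hab
          exact ⟨fun ha => hab (J.lower inf_le_left ha), fun hb => hab (J.lower inf_le_right hb)⟩
        · rintro ⟨ha, hb⟩ hab
          rcases hJ.mem_or_mem hab with h1 | h1
          · exact ha h1
          · exact hb h1
      · intro a b
        simp only [Set.mem_compl_iff, SetLike.mem_coe]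
        constructor
        · intro hab
          by_contra hc
          push Not at hc
          exact hab (Order.Ideal.sup_mem hc.1 hc.2)
        · rintro (ha | hb) hab
          · exact ha (J.lower le_sup_left hab)
          · exact hb (J.lower le_sup_right hab)
    have hx : (⟨(J : Set D)ᶜ, hP⟩ : X D) ∈ h x := by
      show x ∈ ((J : Set D)ᶜ)
      intro hxJ
      exact (Set.disjoint_left.1 hF) (show x ∈ ((Order.PFilter.principal x : Order.PFilter D) : Set D) by simp) hxJ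
    have hy := H _ hx
    have hyJ : y ∈ J := hI (by simp)
    exact hy hyJ

theorem h_inj (x y : D) : x = y ↔ ∀ P : X D, P ∈ h x ↔ P ∈ h y := by
  constructor
  · rintro rfl P
    exact Iff.rfl
  · intro H
    exact le_antisymm ((h_le x y).2 fun P => (H P).1) ((h_le y x).2 fun P => (H P).2)

/-- the element as a set, relative to `e` -/
def k0 (e x : D) : Set (X D) := {P | ¬ (P ∈ h x ↔ P ∈ h e)}

theorem mem_k0 (e x : D) (P : X D) : P ∈ k0 e x ↔ ¬ (P ∈ h x ↔ P ∈ h e) := Iff.rfl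

theorem k0_inj (e : D) : Function.Injective (k0 e) := by
  intro x y hxy
  rw [h_inj]
  intro P
  have := Set.ext_iff.1 hxy P
  rw [mem_k0, mem_k0] at this
  tauto

theorem k0_e (e : D) : k0 e e = ∅ := by
  ext P
  rw [mem_k0]
  simp

theorem k0_inter (e x y : D) :
    k0 e ((x ⊓ y) ⊔ (x ⊓ e) ⊔ (y ⊓ e)) = k0 e x ∩ k0 e y := by
  ext P
  rw [Set.mem_inter_iff, mem_k0, mem_k0, mem_k0, h_sup, h_sup, h_inf, h_inf, h_inf]
  tauto

theorem k0_symm (hD : ∀ a b c : D, a ≤ b → b ≤ c → ∃ d, b ⊓ d = a ∧ b ⊔ d = c) (e x y : D) :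
    ∃ z, ∀ P : X D, P ∈ k0 e z ↔ ¬ (P ∈ k0 e x ↔ P ∈ k0 e y) := by
  obtain ⟨d, hd1, hd2⟩ := hD (x ⊓ y ⊓ e) ((x ⊓ y) ⊔ (x ⊓ e) ⊔ (y ⊓ e)) (x ⊔ y ⊔ e)
    (by
      rw [h_le]
      intro P
      rw [h_sup, h_sup, h_inf, h_inf, h_inf, h_inf]
      tauto)
    (by
      rw [h_le]
      intro P
      rw [h_sup, h_sup, h_inf, h_inf, h_inf, h_sup, h_sup]
      tauto)
  refine ⟨d, fun P => ?_⟩
  rw [h_inj] at hd1 hd2
  have h1 := hd1 P
  have h2 := hd2 P
  rw [h_inf, h_sup, h_sup, h_inf, h_inf, h_inf, h_inf, h_inf] at h1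
  rw [h_sup, h_sup, h_sup, h_sup, h_sup, h_inf, h_inf, h_inf] at h2
  rw [mem_k0, mem_k0, mem_k0]
  clear hd1 hd2
  by_cases hx : P ∈ h x <;> by_cases hy : P ∈ h y <;> by_cases he : P ∈ h e <;>
    by_cases hz : P ∈ h d <;> simp_all

variable (hD : ∀ a b c : D, a ≤ b → b ≤ c → ∃ d, b ⊓ d = a ∧ b ⊔ d = c) (e : D)
include hD

theorem G_symm (s t : Set (X D)) (hs : ∃ x, k0 e x = s) (ht : ∃ x, k0 e x = t) :
    ∃ x, k0 e x = {P | ¬ (P ∈ s ↔ P ∈ t)} := by
  obtain ⟨x, rfl⟩ := hs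
  obtain ⟨y, rfl⟩ := ht
  obtain ⟨z, hz⟩ := k0_symm hD e x y
  exact ⟨z, Set.ext hz⟩

omit hD in
theorem G_inter (s t : Set (X D)) (hs : ∃ x, k0 e x = s) (ht : ∃ x, k0 e x = t) :
    ∃ x, k0 e x = s ∩ t := by
  obtain ⟨x, rfl⟩ := hs
  obtain ⟨y, rfl⟩ := ht
  exact ⟨_, k0_inter e x y⟩

theorem G_diff (s t : Set (X D)) (hs : ∃ x, k0 e x = s) (ht : ∃ x, k0 e x = t) :
    ∃ x, k0 e x = s \ t := by
  obtain ⟨z, hz⟩ := G_symm hD e s (s ∩ t) hs (G_inter e s t hs ht)
  refine ⟨z, hz.trans ?_⟩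
  ext P
  simp only [Set.mem_ofPred_eq, Set.mem_inter_iff, Set.mem_sdiff]
  tauto

theorem G_union (s t : Set (X D)) (hs : ∃ x, k0 e x = s) (ht : ∃ x, k0 e x = t) :
    ∃ x, k0 e x = s ∪ t := by
  obtain ⟨z, hz⟩ := G_symm hD e s (t \ s) hs (G_diff hD e t s ht hs)
  refine ⟨z, hz.trans ?_⟩
  ext P
  simp only [Set.mem_ofPred_eq, Set.mem_union, Set.mem_sdiff]
  tauto

/-- membership in the Boolean algebra -/
def Mem (e : D) (s : Set (X D)) : Prop := (∃ x, k0 e x = s) ∨ (∃ x, k0 e x = sᶜ)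

omit hD in
theorem Mem_compl (s : Set (X D)) (hs : Mem e s) : Mem e sᶜ := by
  rcases hs with hs | hs
  · right
    rw [compl_compl]
    exact hs
  · left
    exact hs

theorem Mem_union (s t : Set (X D)) (hs : Mem e s) (ht : Mem e t) : Mem e (s ∪ t) := by
  rcases hs with hs | hs <;> rcases ht with ht | ht
  · left
    exact G_union hD e s t hs ht
  · right
    have := G_diff hD e (tᶜ) s ht hs
    have h1 : (s ∪ t)ᶜ = tᶜ \ s := by
      ext P
      simp only [Set.mem_compl_iff, Set.mem_union, Set.mem_sdiff]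
      tauto
    rw [h1]
    exact this
  · right
    have := G_diff hD e (sᶜ) t hs ht
    have h1 : (s ∪ t)ᶜ = sᶜ \ t := by
      ext P
      simp only [Set.mem_compl_iff, Set.mem_union, Set.mem_sdiff]
      tauto
    rw [h1]
    exact this
  · right
    rw [Set.compl_union]
    exact G_inter e _ _ hs ht

theorem Mem_inter (s t : Set (X D)) (hs : Mem e s) (ht : Mem e t) : Mem e (s ∩ t) := by
  have h1 := Mem_compl e _ (Mem_union hD e _ _ (Mem_compl e _ hs) (Mem_compl e _ ht))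
  rw [Set.compl_union, compl_compl, compl_compl] at h1
  exact h1

/-- the Boolean algebra -/
def BA : BooleanSubalgebra (Set (X D)) where
  carrier := {s | Mem e s}
  supClosed' := fun s hs t ht => Mem_union hD e s t hs ht
  infClosed' := fun s hs t ht => Mem_inter hD e s t hs ht
  compl_mem' := fun {s} hs => Mem_compl e s hs
  bot_mem' := Or.inl ⟨e, k0_e e⟩

theorem mem_BA (s : Set (X D)) : s ∈ BA hD e ↔ Mem e s := Iff.rfl

/-- the embedding -/
def k (x : D) : BA hD e := ⟨k0 e x, Or.inl ⟨x, rfl⟩⟩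

theorem coe_k (x : D) : ((k hD e x : BA hD e) : Set (X D)) = k0 e x := rfl

theorem BA_countable [Countable D] : Countable (BA hD e) := by
  classical
  let F : D × Bool → BA hD e := fun p => if p.2 then k hD e p.1 else (k hD e p.1)ᶜ
  have hF : Function.Surjective F := by
    intro b
    rcases b.2 with ⟨x, hx⟩ | ⟨x, hx⟩
    · refine ⟨(x, true), ?_⟩
      have h0 : F (x, true) = k hD e x := by simp [F]
      rw [h0]
      exact Subtype.ext hx
    · refine ⟨(x, false), ?_⟩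
      have h0 : F (x, false) = (k hD e x)ᶜ := by simp [F]
      have h1 : (k0 e x)ᶜ = (b : Set (X D)) := by rw [hx, compl_compl]
      rw [h0]
      exact Subtype.ext h1
  exact hF.countable

theorem k_inj : Function.Injective (k hD e) := by
  intro x y hxy
  exact k0_inj e (congrArg Subtype.val hxy)

theorem BA_infinite [Infinite D] : Infinite (BA hD e) := Infinite.of_injective _ (k_inj hD e)

theorem k_e : k hD e e = ⊥ := Subtype.ext (k0_e e)

theorem G_of_le (b : BA hD e) (x : D) (hb : b ≤ k hD e x) : ∃ y, k0 e y = (b : Set (X D)) := by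
  have hb' : (b : Set (X D)) ⊆ k0 e x := hb
  rcases b.2 with hy | hy
  · exact hy
  · obtain ⟨z, hz⟩ := G_diff hD e (k0 e x) (b : Set (X D))ᶜ ⟨x, rfl⟩ hy
    refine ⟨z, hz.trans ?_⟩
    ext P
    have h1 := @hb' P
    simp only [Set.mem_sdiff, Set.mem_compl_iff, not_not]
    tauto

theorem k_le (x y : D) : k hD e x ≤ k hD e y ↔ (x ⊓ y) ⊔ (x ⊓ e) ⊔ (y ⊓ e) = x := by
  have h1 : k hD e x ≤ k hD e y ↔ k0 e x ⊆ k0 e y := Iff.rfl
  rw [h1, ← Set.inter_eq_left, ← k0_inter]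
  exact (k0_inj e).eq_iff

end

end Pool.Agent.N329.VB.RCAP

namespace Pool.Agent.N329.VB

open RCAP

/-- the theorem -/
theorem RCA : Pool.Agent.N641.VB.S_RCA := by
  intro D _ _ _ hD e
  refine ⟨BA hD e, inferInstance, k hD e, BA_countable hD e, BA_infinite hD e, k_inj hD e,
    k_e hD e, k_le hD e, ?_, ?_, ?_, ?_, ?_, ?_, ?_, ?_, ?_⟩
  · intro b
    rcases b.2 with ⟨x, hx⟩ | ⟨x, hx⟩
    · exact Or.inl ⟨x, Subtype.ext hx⟩
    · exact Or.inr ⟨x, Subtype.ext hx⟩
  · intro b x hb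
    obtain ⟨y, hy⟩ := G_of_le hD e b x hb
    exact ⟨y, Subtype.ext hy⟩
  · intro x y
    obtain ⟨z, hz⟩ := G_union hD e (k0 e x) (k0 e y) ⟨x, rfl⟩ ⟨y, rfl⟩
    exact ⟨z, Subtype.ext hz⟩
  · intro b x hb hx
    obtain ⟨y, hy⟩ := G_of_le hD e b x hb
    refine ⟨y, ?_, Subtype.ext hy⟩
    rw [h_le] at hx ⊢
    intro P he
    have h1 : P ∈ (b : Set (X D)) → P ∈ k0 e x := fun h => hb h
    rw [← hy, mem_k0, mem_k0] at h1
    have h2 := hx P he
    tauto
  · intro b x hb hx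
    obtain ⟨y, hy⟩ := G_of_le hD e b x hb
    refine ⟨y, ?_, Subtype.ext hy⟩
    rw [h_le] at hx ⊢
    intro P hP
    have h1 : P ∈ (b : Set (X D)) → P ∈ k0 e x := fun h => hb h
    rw [← hy, mem_k0, mem_k0] at h1
    have h2 := hx P
    tauto
  · intro x y hx hy
    refine Subtype.ext ?_
    show k0 e (x ⊔ y) = k0 e x ∪ k0 e y
    ext P
    rw [h_le] at hx hy
    have h1 := hx P
    have h2 := hy P
    rw [Set.mem_union, mem_k0, mem_k0, mem_k0, h_sup]
    tauto
  · intro x y hx hy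
    refine Subtype.ext ?_
    show k0 e (x ⊓ y) = k0 e x ∪ k0 e y
    ext P
    rw [h_le] at hx hy
    have h1 := hx P
    have h2 := hy P
    rw [Set.mem_union, mem_k0, mem_k0, mem_k0, h_inf]
    tauto
  · intro x
    constructor
    · refine Subtype.ext ?_
      show k0 e x = k0 e (x ⊔ e) ∪ k0 e (x ⊓ e)
      ext P
      rw [Set.mem_union, mem_k0, mem_k0, mem_k0, h_inf, h_sup]
      tauto
    · refine Subtype.ext ?_
      show k0 e (x ⊔ e) ∩ k0 e (x ⊓ e) = ∅
      ext P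
      rw [Set.mem_inter_iff, mem_k0, mem_k0, h_inf, h_sup, Set.mem_empty_iff_false]
      tauto
  · intro x y
    have h0 : (k hD e (x ⊔ e) ≤ k hD e (y ⊔ e) ∧ k hD e (y ⊓ e) ≤ k hD e (x ⊓ e)) ↔
        (k0 e (x ⊔ e) ⊆ k0 e (y ⊔ e) ∧ k0 e (y ⊓ e) ⊆ k0 e (x ⊓ e)) := Iff.rfl
    rw [h0, h_le, Set.subset_def, Set.subset_def]
    constructor
    · intro H
      constructor
      · intro P
        have h1 := H P
        rw [mem_k0, mem_k0, h_sup, h_sup]
        tauto
      · intro P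
        have h1 := H P
        rw [mem_k0, mem_k0, h_inf, h_inf]
        tauto
    · rintro ⟨H1, H2⟩ P
      have h1 := H1 P
      have h2 := H2 P
      rw [mem_k0, mem_k0, h_sup, h_sup] at h1
      rw [mem_k0, mem_k0, h_inf, h_inf] at h2
      clear H1 H2
      by_cases hx : P ∈ h x <;> by_cases hy : P ∈ h y <;> by_cases he : P ∈ h e <;> simp_all

end Pool.Agent.N329.VB
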